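import Pool.Agent.TH98.ZT.Main

set_option autoImplicit false
set_option linter.unusedSectionVars false

open scoped Matrix ENNReal Pointwise symmDiff Topology

namespace Pool.Agent.TH98.ZT

open Pool.Agent.H496R3.ZS (IsAmenable)

noncomputable section

lemma mem_closure_pi_of {α : Type} (S : Set (α → ℂ)) (x : α → ℂ)
    (h : ∀ (I : Finset α) (ε : ℝ), 0 < ε → ∃ y ∈ S, ∀ a ∈ I, ‖y a - x a‖ < ε) : x ∈ closure S := by
  rw [mem_closure_iff]
  intro o ho hx
  rw [isOpen_pi_iff] at ho
  obtain ⟨I, u, hu, hsub⟩ := ho x hx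
  have h1 : ∀ᶠ ε in 𝓝[>] (0 : ℝ), ∀ a ∈ I, Metric.ball (x a) ε ⊆ u a := by
    rw [Filter.eventually_all_finset]
    intro a ha
    obtain ⟨δ, hδ, hb⟩ := Metric.isOpen_iff.1 (hu a ha).1 (x a) (hu a ha).2
    filter_upwards [Ioo_mem_nhdsGT hδ] with ε hε
    exact (Metric.ball_subset_ball hε.2.le).trans hb
  obtain ⟨ε, hε, hpos⟩ := (h1.and self_mem_nhdsWithin).exists
  obtain ⟨y, hy, hyI⟩ := h I ε hpos
  refine ⟨y, hsub ?_, hy⟩
  intro a ha
  refine hε a ha ?_
  rw [Metric.mem_ball, dist_eq_norm]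
  exact hyI a ha

variable {G : Type} [Group G] {C : Subgroup G}
  {V : Type} [NormedAddCommGroup V] [InnerProductSpace ℂ V]

/-- the matrix coefficients of the vectors attached to a finite set -/
lemma coeff_folner (π : C →* (V ≃ₗᵢ[ℂ] V)) (F : Finset C) (hF : F.Nonempty) {ι : Type} [Finite ι]
    (v : ι → V) : ∃ (N : ℕ) (w : ι → Fin N → L2 C), ∀ i j c,
      ∑ a, inner ℂ (transl c (w i a)) (w j a) =
        (((((F : Set C) ∩ {x | c⁻¹ * x ∈ F}).ncard : ℝ) / F.card : ℝ) : ℂ) *
          inner ℂ (π c (v i)) (v j) := by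
  classical
  have := Fintype.ofFinite ι
  set U : Submodule ℂ V := Submodule.span ℂ
    (((F ×ˢ (Finset.univ : Finset ι)).image fun p => π p.1⁻¹ (v p.2) : Finset V) : Set V) with hU
  have : FiniteDimensional ℂ U := FiniteDimensional.span_finset ℂ _
  have hmem : ∀ x ∈ F, ∀ i, π x⁻¹ (v i) ∈ U := by
    intro x hx i
    refine Submodule.subset_span ?_
    rw [Finset.mem_coe, Finset.mem_image]
    exact ⟨(x, i), Finset.mem_product.2 ⟨hx, Finset.mem_univ _⟩, rfl⟩
  let e := stdOrthonormalBasis ℂ U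
  have hpars : ∀ p q : V, p ∈ U → q ∈ U →
      ∑ a, inner ℂ p (e a : V) * inner ℂ (e a : V) q = inner ℂ p q := by
    intro p q hp hq
    have := e.sum_inner_mul_inner ⟨p, hp⟩ ⟨q, hq⟩
    simpa using this
  have hcard : (0 : ℝ) < F.card := by exact_mod_cast hF.card_pos
  set n : ℝ := (F.card : ℝ).sqrt⁻¹ with hn
  have hn2 : n * n = (F.card : ℝ)⁻¹ := by
    rw [hn, ← mul_inv, Real.mul_self_sqrt hcard.le]
  let w : ι → Fin (Module.finrank ℂ U) → L2 C := fun i a =>
    ⟨fun x => if x ∈ F then (n : ℂ) * inner ℂ (e a : V) (π x⁻¹ (v i)) else 0, by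
      refine memℓp_gen (summable_of_ne_finset_zero (s := F) ?_)
      intro x hx
      rw [if_neg hx]
      simp⟩
  have hw : ∀ i a x, w i a x = if x ∈ F then (n : ℂ) * inner ℂ (e a : V) (π x⁻¹ (v i)) else 0 :=
    fun i a x => rfl
  refine ⟨_, w, fun i j c => ?_⟩
  have h1 : ∀ a, inner ℂ (transl c (w i a)) (w j a) = ∑ x ∈ F, if c⁻¹ * x ∈ F then
      ((n * n : ℝ) : ℂ) * (inner ℂ (π (c⁻¹ * x)⁻¹ (v i)) (e a : V) * inner ℂ (e a : V) (π x⁻¹ (v j)))
      else 0 := by
    intro a
    rw [lp.inner_eq_tsum, tsum_eq_sum (s := F)]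
    · refine Finset.sum_congr rfl fun x hx => ?_
      rw [transl_apply, hw, hw, if_pos hx]
      split_ifs with h
      · rw [RCLike.inner_apply, map_mul, inner_conj_symm, Complex.conj_ofReal]
        push_cast
        ring
      · rw [inner_zero_left]
    · intro x hx
      rw [hw j, if_neg hx, inner_zero_right]
  simp only [h1]
  rw [Finset.sum_comm]
  have h2 : ∀ x ∈ F, (∑ a, if c⁻¹ * x ∈ F then
      ((n * n : ℝ) : ℂ) * (inner ℂ (π (c⁻¹ * x)⁻¹ (v i)) (e a : V) * inner ℂ (e a : V) (π x⁻¹ (v j)))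
      else 0) = if c⁻¹ * x ∈ F then ((n * n : ℝ) : ℂ) * inner ℂ (π c (v i)) (v j) else 0 := by
    intro x hx
    split_ifs with h
    · rw [← Finset.mul_sum, hpars _ _ (hmem _ h i) (hmem _ hx j)]
      congr 1
      have e1 : π (c⁻¹ * x)⁻¹ (v i) = π x⁻¹ (π c (v i)) := by
        rw [mul_inv_rev, inv_inv, map_mul]
        rfl
      rw [e1, (π x⁻¹).inner_map_map]
    · exact Finset.sum_const_zero
  rw [Finset.sum_congr rfl h2, ← Finset.sum_filter, Finset.sum_const, nsmul_eq_mul, hn2]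
  have h3 : ((F : Set C) ∩ {x | c⁻¹ * x ∈ F}).ncard = (F.filter fun x => c⁻¹ * x ∈ F).card := by
    rw [← Set.ncard_coe_finset]
    congr 1
    ext x
    simp
  rw [h3]
  push_cast
  ring

/-- all unitary representations of an amenable group are tempered -/
theorem tempered_of_amenable (hC : IsAmenable C) (π : URep C V) : Tempered π := by
  classical
  intro ι _ v
  apply mem_closure_pi_of
  intro I ε hε
  set M : ℝ := ∑ p ∈ I, ‖inner ℂ (π.hom p.2.2 (v p.1)) (v p.2.1)‖ with hM
  have hM0 : 0 ≤ M := Finset.sum_nonneg fun _ _ => norm_nonneg _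
  obtain ⟨F, hF, hFS⟩ := hC (I.image fun p => p.2.2) (ε / (2 * (M + 1))) (by positivity)
  obtain ⟨N, w, hw⟩ := coeff_folner π.hom F hF v
  refine ⟨_, ⟨N, w, rfl⟩, fun p hp => ?_⟩
  have hcard : (0 : ℝ) < F.card := by exact_mod_cast hF.card_pos
  change ‖(∑ a, inner ℂ (transl p.2.2 (w p.1 a)) (w p.2.1 a)) -
    inner ℂ (π.hom p.2.2 (v p.1)) (v p.2.1)‖ < ε
  rw [hw]
  set z : ℂ := inner ℂ (π.hom p.2.2 (v p.1)) (v p.2.1) with hz
  set m : ℝ := (((F : Set C) ∩ {x | p.2.2⁻¹ * x ∈ F}).ncard : ℝ) with hm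
  have h1 : m ≤ F.card := by
    rw [hm]
    have : ((F : Set C) ∩ {x | p.2.2⁻¹ * x ∈ F}).ncard ≤ (F : Set C).ncard :=
      Set.ncard_le_ncard Set.inter_subset_left F.finite_toSet
    rw [Set.ncard_coe_finset] at this
    exact_mod_cast this
  have h2 : (F.card : ℝ) - m ≤ ε / (2 * (M + 1)) * F.card := by
    refine le_trans ?_ (hFS p.2.2 (Finset.mem_image_of_mem _ hp))
    have e1 : (F : Set C).ncard ≤ ((F : Set C) ∩ {x | p.2.2⁻¹ * x ∈ F}).ncard +
        ((p.2.2 • (F : Set C)) ∆ (F : Set C)).ncard := by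
      refine le_trans (Set.ncard_le_ncard ?_ ?_) (Set.ncard_union_le _ _)
      · intro x hx
        by_cases h : p.2.2⁻¹ * x ∈ F
        · exact Or.inl ⟨hx, h⟩
        · refine Or.inr (Or.inr ⟨hx, ?_⟩)
          intro h'
          apply h
          obtain ⟨y, hy, hyx⟩ := h'
          have : p.2.2⁻¹ * x = y := by
            rw [← hyx]
            change p.2.2⁻¹ * (p.2.2 * y) = y
            rw [inv_mul_cancel_left]
          rw [this]
          exact hy
      · refine Set.Finite.union (F.finite_toSet.subset Set.inter_subset_left) ?_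
        refine ((F.finite_toSet.image fun x => p.2.2 • x).union F.finite_toSet).subset ?_
        rintro x (hx | hx)
        · exact Or.inl hx.1
        · exact Or.inr hx.1
    rw [Set.ncard_coe_finset] at e1
    have e2 : (F.card : ℝ) ≤ m + (((p.2.2 • (F : Set C)) ∆ (F : Set C)).ncard : ℝ) := by
      rw [hm]
      exact_mod_cast e1
    linarith
  have h3 : ((m / F.card : ℝ) : ℂ) * z - z = ((m / F.card - 1 : ℝ) : ℂ) * z := by
    push_cast; ring
  rw [h3, norm_mul, Complex.norm_real, Real.norm_eq_abs]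
  have h4 : |m / F.card - 1| ≤ ε / (2 * (M + 1)) := by
    rw [abs_le]
    constructor
    · have : (F.card - m) / F.card ≤ ε / (2 * (M + 1)) := by
        rw [div_le_iff₀ hcard]
        exact h2
      have e : m / F.card - 1 = -((F.card - m) / F.card) := by
        field_simp
        ring
      rw [e]
      linarith
    · have : m / F.card ≤ 1 := by
        rw [div_le_one hcard]
        exact h1
      have : 0 ≤ ε / (2 * (M + 1)) := by positivity
      linarith
  have h5 : ‖z‖ ≤ M := by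
    rw [hM, hz]
    exact Finset.single_le_sum (f := fun p : ι × ι × C => ‖inner ℂ (π.hom p.2.2 (v p.1)) (v p.2.1)‖)
      (fun _ _ => norm_nonneg _) hp
  calc |m / F.card - 1| * ‖z‖ ≤ ε / (2 * (M + 1)) * M := by
        refine mul_le_mul h4 h5 (norm_nonneg _) (by positivity)
    _ < ε := by
        rw [div_mul_eq_mul_div, div_lt_iff₀ (by positivity)]
        nlinarith

/-- the regular representation is tempered -/
theorem tempered_reg (C : Type) [Group C] : Tempered (⟨reg⟩ : URep C (L2 C)) := by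
  intro ι _ v
  refine subset_closure ⟨1, fun i _ => v i, ?_⟩
  funext p
  simp only [regCoef, Finset.univ_unique, Finset.sum_const, Finset.card_singleton, one_smul]
  rfl

end

end Pool.Agent.TH98.ZT
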