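import Pool.Agent.H919R4.ZS.Defs
import Pool.Agent.H496R3.ZS.Stmt

/-!
Homology of a subgroup with coefficients in a unitary representation, computed from a finite
free resolution of the group.

Let `X : FinRes G` be the cellular chain complex of the universal cover of a finite aspherical
complex `M` with fundamental group `G`, let `C` be a subgroup of `G` and let `π` be a unitary
representation of `C` on an inner product space `V`. An `i`-chain of the covering `M_C` with
fundamental group `C`, with coefficients in the local system of `π`, is an element of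
`V ⊗_{ℂ[C]} (ℂ ⊗ C_i)`. It is the same as a tuple of functions `f j : G → V`, one for each
`i`-cell of `M`, with `f j (c x) = π(c) (f j x)` for `c ∈ C`, which vanish outside finitely many
cosets `C x`.
-/

set_option autoImplicit false

namespace Pool.Agent.TH98.ZT

open Pool.Agent.H919R4.ZS (FinRes)

/-- A unitary representation of a group `C` on an inner product space `V`. -/
structure URep (C : Type) [Group C] (V : Type) [NormedAddCommGroup V] [InnerProductSpace ℂ V] where
  /-- the homomorphism to the group of linear isometries of `V` onto `V` -/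
  hom : C →* (V ≃ₗᵢ[ℂ] V)

/-- The action of a group element on a vector. -/
def URep.app {C : Type} [Group C] {V : Type} [NormedAddCommGroup V] [InnerProductSpace ℂ V]
    (π : URep C V) (c : C) (v : V) : V := π.hom c v

section chains

variable {G : Type} [Group G] {C : Subgroup G}
  {V : Type} [NormedAddCommGroup V] [InnerProductSpace ℂ V]

/-- The tuple `f` consists of `π`-equivariant functions `G → V`, i.e. `f j (c x) = π(c) (f j x)`,
which vanish outside finitely many cosets `C t`. -/
def IsChn (π : URep C V) {m : ℕ} (f : Fin m → G → V) : Prop :=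
  (∀ (j : Fin m) (c : C) (x : G), f j (c * x) = π.app c (f j x)) ∧
    ∃ T : Finset G, ∀ (j : Fin m) (x : G), f j x ≠ 0 → ∃ t ∈ T, x * t⁻¹ ∈ C

lemma isChn_zero (π : URep C V) (m : ℕ) : IsChn π (0 : Fin m → G → V) :=
  ⟨fun j c x => by simp [URep.app], ∅, fun j x h => absurd rfl h⟩

lemma IsChn.add {π : URep C V} {m : ℕ} {f g : Fin m → G → V} (hf : IsChn π f) (hg : IsChn π g) :
    IsChn π (f + g) := by
  classical
  obtain ⟨hf, T, hT⟩ := hf
  obtain ⟨hg, T', hT'⟩ := hg
  refine ⟨fun j c x => by simp [hf, hg, URep.app], T ∪ T', fun j x h => ?_⟩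
  by_cases h1 : f j x = 0
  · have h2 : g j x ≠ 0 := by
      intro h2
      apply h
      simp [h1, h2]
    obtain ⟨t, ht, h3⟩ := hT' j x h2
    exact ⟨t, Finset.mem_union_right _ ht, h3⟩
  · obtain ⟨t, ht, h3⟩ := hT j x h1
    exact ⟨t, Finset.mem_union_left _ ht, h3⟩

lemma IsChn.neg {π : URep C V} {m : ℕ} {f : Fin m → G → V} (hf : IsChn π f) : IsChn π (-f) := by
  obtain ⟨hf, T, hT⟩ := hf
  refine ⟨fun j c x => by simp [hf, URep.app], T, fun j x h => hT j x ?_⟩
  intro h1
  apply h
  simp [h1]

/-- The group of chains: tuples of length `m` of `π`-equivariant functions `G → V`, which vanish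
outside finitely many cosets `C t`. -/
def chains (π : URep C V) (m : ℕ) : AddSubgroup (Fin m → G → V) where
  carrier := {f | IsChn π f}
  zero_mem' := isChn_zero π m
  add_mem' := IsChn.add
  neg_mem' := IsChn.neg

end chains

variable {G : Type} [Group G]

/-- Right action of a matrix `D` over `ℤ[G]` on tuples of functions with values in an abelian
group: `(f · D) k = ∑_j f j · D j k`, where `a = ∑_g a_g g ∈ ℤ[G]` acts from the right on
functions by `(f · a)(x) = ∑_g a_g f(x g⁻¹)`. -/
def bd {W : Type} [AddCommGroup W] {a b : ℕ} (D : Matrix (Fin a) (Fin b) (MonoidAlgebra ℤ G))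
    (f : Fin a → G → W) : Fin b → G → W :=
  fun k x => ∑ j, ∑ g ∈ (D j k).coeff.support, (D j k).coeff g • f j (x * g⁻¹)

lemma bd_zero {W : Type} [AddCommGroup W] {a b : ℕ}
    (D : Matrix (Fin a) (Fin b) (MonoidAlgebra ℤ G)) : bd D (0 : Fin a → G → W) = 0 := by
  funext k x
  simp [bd]

lemma bd_add {W : Type} [AddCommGroup W] {a b : ℕ}
    (D : Matrix (Fin a) (Fin b) (MonoidAlgebra ℤ G)) (f g : Fin a → G → W) :
    bd D (f + g) = bd D f + bd D g := by
  funext k x
  simp only [bd, Pi.add_apply, smul_add, Finset.sum_add_distrib]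

/-- The map `f ↦ f · D` as a homomorphism. -/
def bdHom (W : Type) [AddCommGroup W] {a b : ℕ} (D : Matrix (Fin a) (Fin b) (MonoidAlgebra ℤ G)) :
    (Fin a → G → W) →+ (Fin b → G → W) where
  toFun := bd D
  map_zero' := bd_zero D
  map_add' := bd_add D

section homology

variable (X : FinRes G) {C : Subgroup G}
  {V : Type} [NormedAddCommGroup V] [InnerProductSpace ℂ V] (π : URep C V)

/-- The cycles of `V ⊗_{ℂ[C]} C_*`: the chains in degree `0`, and the chains with boundary `0` in
positive degree. -/
def cyc : ∀ i : ℕ, AddSubgroup (Fin (X.n i) → G → V)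
  | 0 => chains π (X.n 0)
  | i + 1 => chains π (X.n (i + 1)) ⊓ (bdHom V (X.d i)).ker

/-- The boundaries of `V ⊗_{ℂ[C]} C_*`. -/
def bnd (i : ℕ) : AddSubgroup (Fin (X.n i) → G → V) :=
  (chains π (X.n (i + 1))).map (bdHom V (X.d i))

/-- The homology `H_i(C; V)` of the group `C` with coefficients in `V`: the homology (cycles
modulo boundaries) of `V ⊗_{ℂ[C]} C_*`, where `C_*` is the resolution `X`, restricted to `C`. -/
def homologyV (i : ℕ) : Type := cyc X π i ⧸ (bnd X π i).addSubgroupOf (cyc X π i)

end homology

/-! ### tempered representations -/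

/-- The Hilbert space `ℓ²(C)`. -/
abbrev L2 (C : Type) : Type := lp (fun _ : C => ℂ) 2

/-- Left translation on functions: `(λ(c) f)(x) = f(c⁻¹ x)`, an isometry of `ℓ²(C)`. -/
def transl {C : Type} [Group C] (c : C) (f : L2 C) : L2 C :=
  ⟨fun x => f (c⁻¹ * x), by
    have h1 := (lp.memℓp f).summable (by norm_num)
    refine memℓp_gen ?_
    exact ((Equiv.mulLeft c⁻¹).summable_iff (f := fun h => ‖f h‖ ^ (2 : ENNReal).toReal)).2 h1⟩

/-- The inner product of `ℓ²(C)`. -/
noncomputable def ip {C : Type} (f g : L2 C) : ℂ :=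
  @inner ℂ (L2 C) InnerProductSpace.toInner f g

/-- The matrix coefficients `(i, j, c) ↦ ⟪π(c) v i, v j⟫` of a family of vectors. -/
noncomputable def coef {C : Type} [Group C] {V : Type} [NormedAddCommGroup V] [InnerProductSpace ℂ V]
    (π : URep C V) {ι : Type} (v : ι → V) : ι × ι × C → ℂ :=
  fun p => @inner ℂ V InnerProductSpace.toInner (π.app p.2.2 (v p.1)) (v p.2.1)

/-- The matrix coefficients `(i, j, c) ↦ ∑ a, ⟪λ(c) w i a, w j a⟫` of a family of vectors in a
finite multiple of `ℓ²(C)`. -/
noncomputable def regCoef {C : Type} [Group C] {ι : Type} {N : ℕ} (w : ι → Fin N → L2 C) :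
    ι × ι × C → ℂ :=
  fun p => ∑ a, ip (transl p.2.2 (w p.1 a)) (w p.2.1 a)

/-- The representation `π` of `C` is weakly contained in the regular representation `λ` of `C`
on `ℓ²(C)`: for all finite families `v i` of vectors, the matrix coefficients
`c ↦ ⟪π(c) v i, v j⟫` are the limits, for pointwise convergence and simultaneously in `i, j`, of
the matrix coefficients `c ↦ ∑ a, ⟪λ(c) w i a, w j a⟫` of families `w i` of vectors in finite
multiples of `ℓ²(C)`. -/
def Tempered {C : Type} [Group C] {V : Type} [NormedAddCommGroup V] [InnerProductSpace ℂ V]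
    (π : URep C V) : Prop :=
  ∀ (ι : Type) [Finite ι] (v : ι → V),
    coef π v ∈ closure {κ : ι × ι × C → ℂ | ∃ (N : ℕ) (w : ι → Fin N → L2 C), κ = regCoef w}

end Pool.Agent.TH98.ZT
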