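import Pool.Agent.TH254.ZT.Main
import Pool.Agent.H919R4.ZS.Act
import Pool.Agent.TH98.ZT.Defs

set_option autoImplicit false
set_option linter.unusedSectionVars false

open scoped Matrix ENNReal

namespace Pool.Agent.TH98.ZT

open Pool.Agent.H919R4.ZS (FinRes RedC toRed L lregL lregL_apply L_single valR act coe_toRed)

noncomputable section

variable {G : Type} [Group G]

/-- adjoint action -/
def coact {a b : ℕ} (M : Matrix (Fin a) (Fin b) (L2 G →L[ℂ] L2 G)) (v : Fin a → L2 G) :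
    Fin b → L2 G := fun k => ∑ j, ContinuousLinearMap.adjoint (M j k) (v j)

lemma lregL_adjoint (g : G) : ContinuousLinearMap.adjoint (lregL g : L2 G →L[ℂ] L2 G) = lregL g⁻¹ := by
  symm
  rw [ContinuousLinearMap.eq_adjoint_iff]
  intro u v
  rw [lp.inner_eq_tsum, lp.inner_eq_tsum]
  rw [← (Equiv.mulLeft g).tsum_eq (fun x => inner ℂ (u x) ((lregL g v : L2 G) x))]
  refine tsum_congr fun x => ?_
  rw [lregL_apply, lregL_apply, inv_inv]
  simp

lemma adjoint_L_apply (a : MonoidAlgebra ℤ G) (v : L2 G) (x : G) :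
    ContinuousLinearMap.adjoint (L a) v x = ∑ g ∈ a.coeff.support, a.coeff g • v (g * x) := by
  have h1 : L a = ∑ g ∈ a.coeff.support, (a.coeff g : ℂ) • lregL g := by
    conv_lhs => rw [← MonoidAlgebra.sum_coeff_single a]
    rw [Finsupp.sum, map_sum]
    refine Finset.sum_congr rfl fun g _ => ?_
    rw [L_single, Int.cast_smul_eq_zsmul]
  rw [h1, map_sum, sum_apply, lp.coeFn_sum, Finset.sum_apply]
  refine Finset.sum_congr rfl fun g _ => ?_
  rw [LinearIsometryEquiv.map_smulₛₗ, lregL_adjoint, smul_apply, lp.coeFn_smul, Pi.smul_apply,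
    lregL_apply, inv_inv]
  simp

lemma hasSum_norm_sq (v : L2 G) : HasSum (fun x => ‖v x‖ ^ 2) (‖v‖ ^ 2) := by
  have h := lp.hasSum_norm (p := 2) (by norm_num) v
  have h4 : (2 : ENNReal).toReal = ((2 : ℕ) : ℝ) := by norm_num
  simp only [h4, Real.rpow_natCast] at h
  exact h

/-- the inequality on vectors -/
lemma bound_aux {a b : ℕ} (D : Matrix (Fin a) (Fin b) (L2 G →L[ℂ] L2 G))
    (s : Matrix (Fin b) (Fin a) (L2 G →L[ℂ] L2 G)) (h : D * s = 1) (w : Fin a → L2 G) :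
    ∑ j, ‖w j‖ ^ 2 ≤ (∑ k, ∑ l, ‖s k l‖ ^ 2) * ∑ k, ‖coact D w k‖ ^ 2 := by
  set A : ℝ := ∑ j, ‖w j‖ ^ 2 with hA
  set B : ℝ := ∑ k, ‖coact D w k‖ ^ 2 with hB
  set K : ℝ := ∑ k, ∑ l, ‖s k l‖ ^ 2 with hK
  have hA0 : 0 ≤ A := Finset.sum_nonneg fun _ _ => by positivity
  have hB0 : 0 ≤ B := Finset.sum_nonneg fun _ _ => by positivity
  have hK0 : 0 ≤ K := Finset.sum_nonneg fun _ _ => Finset.sum_nonneg fun _ _ => by positivity
  have h1 : act (D * s) w = w := by rw [h, Pool.Agent.H919R4.ZS.act_one]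
  have h2 : ((A : ℝ) : ℂ) = ∑ k, inner ℂ (coact D w k) (act s w k) := by
    have e1 : ∀ j, ((‖w j‖ ^ 2 : ℝ) : ℂ) = inner ℂ (w j) (act D (act s w) j) := by
      intro j
      rw [← Pool.Agent.H919R4.ZS.act_mul, h1, inner_self_eq_norm_sq_to_K]
      norm_cast
    rw [hA, Complex.ofReal_sum]
    calc ∑ j, ((‖w j‖ ^ 2 : ℝ) : ℂ) = ∑ j, ∑ k, inner ℂ (w j) (D j k (act s w k)) := by
          refine Finset.sum_congr rfl fun j _ => ?_
          rw [e1]
          change inner ℂ (w j) (∑ k, D j k (act s w k)) = _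
          rw [inner_sum]
      _ = ∑ k, ∑ j, inner ℂ (w j) (D j k (act s w k)) := Finset.sum_comm
      _ = ∑ k, inner ℂ (coact D w k) (act s w k) := by
          refine Finset.sum_congr rfl fun k _ => ?_
          rw [coact, sum_inner]
          refine Finset.sum_congr rfl fun j _ => ?_
          rw [ContinuousLinearMap.adjoint_inner_left]
  have h3 : A ≤ ∑ k, ‖coact D w k‖ * ‖act s w k‖ := by
    have e1 : A = ‖((A : ℝ) : ℂ)‖ := by rw [Complex.norm_real, Real.norm_of_nonneg hA0]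
    rw [e1, h2]
    refine (norm_sum_le _ _).trans (Finset.sum_le_sum fun k _ => norm_inner_le_norm _ _)
  have h4 : ∑ k, ‖act s w k‖ ^ 2 ≤ K * A := by
    rw [hK, Finset.sum_mul]
    refine Finset.sum_le_sum fun k _ => ?_
    have e1 : ‖act s w k‖ ≤ ∑ l, ‖s k l‖ * ‖w l‖ :=
      (norm_sum_le _ _).trans (Finset.sum_le_sum fun l _ => ContinuousLinearMap.le_opNorm _ _)
    refine (pow_le_pow_left₀ (norm_nonneg _) e1 2).trans ?_
    exact Finset.sum_mul_sq_le_sq_mul_sq _ _ _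
  have h5 : A ^ 2 ≤ B * (K * A) := by
    refine (pow_le_pow_left₀ hA0 h3 2).trans ?_
    refine (Finset.sum_mul_sq_le_sq_mul_sq _ _ _).trans ?_
    exact mul_le_mul_of_nonneg_left h4 hB0
  rcases hA0.eq_or_lt with h6 | h6
  · rw [← h6]; positivity
  · have : A * A ≤ (K * B) * A := by nlinarith
    exact le_of_mul_le_mul_right this h6

/-- **the linear isoperimetric inequality** for square summable functions on `G` -/
theorem bound (X : FinRes G) (i : ℕ) (hlen : X.len = i + 1)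
    (h : ∀ k ≤ X.len, Subsingleton (X.homology (toRed G) k)) :
    ∃ K : ℝ, 0 ≤ K ∧ ∀ (u : Fin (X.n (i + 1)) → G → ℂ) (α : Fin (X.n (i + 1)) → ℝ)
      (β : Fin (X.n i) → ℝ), (∀ j, HasSum (fun x => ‖u j x‖ ^ 2) (α j)) →
      (∀ k, HasSum (fun x => ‖bd (X.d i) u k x‖ ^ 2) (β k)) → ∑ j, α j ≤ K * ∑ k, β k := by
  obtain ⟨s, -, s', hs⟩ := Pool.Agent.TH254.ZT.exists_contr X (toRed G) (i + 1)
    (fun k hk => h k (by omega))
  have hn : X.n (i + 1 + 1) = 0 := X.n_eq_zero _ (by omega)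
  have hE : IsEmpty (Fin (X.n (i + 1 + 1))) := by rw [hn]; infer_instance
  have h0 : s * (X.d (i + 1)).map (toRed G) = 0 := by
    refine funext fun j => funext fun k => ?_
    rw [Matrix.mul_apply, Finset.univ_eq_empty, Finset.sum_empty]
    rfl
  rw [h0, add_zero] at hs
  have key : ((X.d i).map (toRed G)).map (valR (G := G)) = (X.d i).map (L (G := G)) := by
    refine funext fun j => funext fun k => ?_
    exact coe_toRed (X.d i j k)
  have f0 : (X.d i).map (L (G := G)) * s'.map (valR (G := G)) = 1 := by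
    have := Pool.Agent.H919R4.ZS.map_ident0 (valR (G := G)) _ _ hs
    rwa [key] at this
  refine ⟨∑ k, ∑ l, ‖(s'.map (valR (G := G))) k l‖ ^ 2,
    Finset.sum_nonneg fun _ _ => Finset.sum_nonneg fun _ _ => by positivity, ?_⟩
  intro u α β hα hβ
  have hmem : ∀ j, Memℓp (fun x : G => u j x⁻¹) 2 := by
    intro j
    have h1 : Summable fun x => ‖u j x⁻¹‖ ^ 2 :=
      (Equiv.inv G).summable_iff.2 (hα j).summable
    refine memℓp_gen ?_
    have h4 : (2 : ENNReal).toReal = ((2 : ℕ) : ℝ) := by norm_num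
    simp only [h4, Real.rpow_natCast]
    exact h1
  obtain ⟨w, hw⟩ : ∃ w : Fin (X.n (i + 1)) → L2 G, ∀ j x, w j x = u j x⁻¹ :=
    ⟨fun j => ⟨fun x => u j x⁻¹, hmem j⟩, fun j x => rfl⟩
  have h1 : ∀ j, ‖w j‖ ^ 2 = α j := by
    intro j
    have e1 : (fun x => ‖w j x‖ ^ 2) = (fun x => ‖u j x‖ ^ 2) ∘ (Equiv.inv G) := by
      funext x
      rw [hw]
      rfl
    exact (hasSum_norm_sq (w j)).unique (e1 ▸ (Equiv.inv G).hasSum_iff.2 (hα j))
  have h2 : ∀ k x, coact ((X.d i).map (L (G := G))) w k x = bd (X.d i) u k x⁻¹ := by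
    intro k x
    rw [coact, lp.coeFn_sum, Finset.sum_apply, bd]
    refine Finset.sum_congr rfl fun j _ => ?_
    rw [Matrix.map_apply, adjoint_L_apply]
    refine Finset.sum_congr rfl fun g _ => ?_
    rw [hw, mul_inv_rev]
  have h3 : ∀ k, ‖coact ((X.d i).map (L (G := G))) w k‖ ^ 2 = β k := by
    intro k
    have e1 : (fun x => ‖coact ((X.d i).map (L (G := G))) w k x‖ ^ 2) =
        (fun x => ‖bd (X.d i) u k x‖ ^ 2) ∘ (Equiv.inv G) := by
      funext x
      rw [h2]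
      rfl
    exact (hasSum_norm_sq _).unique (e1 ▸ (Equiv.inv G).hasSum_iff.2 (hβ k))
  have h4 := bound_aux _ _ f0 w
  simp only [h1, h3] at h4
  exact h4

end

end Pool.Agent.TH98.ZT
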