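import Pool.Agent.TH98.ZT.Amen

set_option autoImplicit false

namespace Pool.Agent.TH98.ZT

open Pool.Agent.H919R4.ZS (FinRes toRed)
open Pool.Agent.H496R3.ZS (IsAmenable)

theorem final (G : Type) [Group G] (X : FinRes G) (C : Subgroup G)
    (V : Type) [NormedAddCommGroup V] [InnerProductSpace ℂ V] (π : URep C V)
    (hπ : IsAmenable C ∨ Tempered π) (h : Nontrivial (homologyV X π X.len)) :
    ∃ i ≤ X.len, Nontrivial (X.homology (toRed G) i) := by
  by_contra hcon
  push Not at hcon
  have hs : ∀ k ≤ X.len, Subsingleton (X.homology (toRed G) k) := fun i hi =>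
    not_nontrivial_iff_subsingleton.1 (by simpa using hcon i hi)
  have hT : Tempered π := by
    rcases hπ with hC | hT
    · exact tempered_of_amenable hC π
    · exact hT
  refine not_nontrivial_iff_subsingleton.2 ?_ h
  have hz : ∀ x : cyc X π X.len, x = 0 := by
    have key : ∀ m, X.len = m → ∀ x : cyc X π m, x = 0 := by
      intro m hm x
      apply Subtype.ext
      cases m with
      | zero => exact top_zero X hm hs _
      | succ i => exact top_cycle X i hm hs π hT x.1 x.2.1 x.2.2
    exact key _ rfl
  constructor
  intro p q
  change (cyc X π X.len ⧸ (bnd X π X.len).addSubgroupOf (cyc X π X.len)) at p q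
  induction p using QuotientAddGroup.induction_on with
  | H p =>
    induction q using QuotientAddGroup.induction_on with
    | H q => rw [hz p, hz q]

end Pool.Agent.TH98.ZT
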