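import Pool.Agent.TH98.ZT.Orbit

set_option autoImplicit false
set_option linter.unusedSectionVars false

open scoped Matrix ENNReal

namespace Pool.Agent.TH98.ZT

open Pool.Agent.H919R4.ZS (FinRes RedC toRed valR L2)

noncomputable section

variable {G : Type} [Group G] {C : Subgroup G} {T T' : Finset G} {a b : ℕ}

section unitary

variable {W : Type} [NormedAddCommGroup W] [InnerProductSpace ℂ W] (ρ : C →* (W ≃ₗᵢ[ℂ] W))

/-- sum of the squares of the values -/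
def AA (C : Subgroup G) (T : Finset G) (a : ℕ) : ((Fin a × T) × (Fin a × T) × C → ℂ) →L[ℂ] ℂ :=
  ∑ j : Fin a, ∑ t : T, ContinuousLinearMap.proj ((j, t), (j, t), (1 : C))

lemma AA_ker (x : Fin a × T → W) :
    AA C T a (ker ρ x) = ((∑ j : Fin a, ∑ t : T, ‖x (j, t)‖ ^ 2 : ℝ) : ℂ) := by
  rw [AA, sum_apply, Complex.ofReal_sum]
  refine Finset.sum_congr rfl fun j _ => ?_
  rw [sum_apply, Complex.ofReal_sum]
  refine Finset.sum_congr rfl fun t _ => ?_
  change inner ℂ (ρ 1 (x (j, t))) (x (j, t)) = _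
  rw [map_one]
  change inner ℂ (x (j, t)) (x (j, t)) = _
  rw [inner_self_eq_norm_sq_to_K]
  norm_cast

/-- sum of the squares of the values of the boundary -/
def BB (C : Subgroup G) (T T' : Finset G) {a b : ℕ}
    (D : Matrix (Fin a) (Fin b) (MonoidAlgebra ℤ G)) :
    ((Fin a × T) × (Fin a × T) × C → ℂ) →L[ℂ] ℂ :=
  ∑ k : Fin b, ∑ x ∈ T', ∑ j : Fin a, ∑ g ∈ (D j k).coeff.support,
    ∑ j' : Fin a, ∑ g' ∈ (D j' k).coeff.support,
      (((D j k).coeff g : ℂ) * ((D j' k).coeff g' : ℂ)) •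
        Phi C T a j (x * g⁻¹) j' (x * g'⁻¹)

lemma BB_ker (D : Matrix (Fin a) (Fin b) (MonoidAlgebra ℤ G)) (x : Fin a × T → W) :
    BB C T T' D (ker ρ x) =
      ((∑ k : Fin b, ∑ y ∈ T', ‖bd D (ext ρ x) k y‖ ^ 2 : ℝ) : ℂ) := by
  simp only [BB, sum_apply, Complex.ofReal_sum, smul_apply, smul_eq_mul, ← inner_ext]
  refine Finset.sum_congr rfl fun k _ => Finset.sum_congr rfl fun y _ => ?_
  have e1 : ((‖bd D (ext ρ x) k y‖ ^ 2 : ℝ) : ℂ) =
      inner ℂ (bd D (ext ρ x) k y) (bd D (ext ρ x) k y) := by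
    rw [inner_self_eq_norm_sq_to_K]
    norm_cast
  rw [e1]
  have e2 : bd D (ext ρ x) k y = ∑ j, ∑ g ∈ (D j k).coeff.support,
      ((D j k).coeff g : ℂ) • ext ρ x j (y * g⁻¹) := by
    rw [bd]
    refine Finset.sum_congr rfl fun j _ => Finset.sum_congr rfl fun g _ => ?_
    rw [Int.cast_smul_eq_zsmul]
  rw [e2, sum_inner]
  refine Finset.sum_congr rfl fun j _ => ?_
  rw [sum_inner]
  refine Finset.sum_congr rfl fun g _ => ?_
  rw [inner_smul_left, inner_sum, Finset.mul_sum]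
  refine Finset.sum_congr rfl fun j' _ => ?_
  rw [inner_sum, Finset.mul_sum]
  refine Finset.sum_congr rfl fun g' _ => ?_
  rw [inner_smul_right]
  rw [show (starRingEnd ℂ) (((D j k).coeff g : ℤ) : ℂ) = (((D j k).coeff g : ℤ) : ℂ) from
    map_intCast _ _]
  ring

lemma bd_ext_equi (D : Matrix (Fin a) (Fin b) (MonoidAlgebra ℤ G)) (f : Fin a → G → W)
    (hf : ∀ (j : Fin a) (c : C) (x : G), f j (c * x) = ρ c (f j x)) (k : Fin b) (c : C) (x : G) :
    bd D f k (c * x) = ρ c (bd D f k x) := by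
  simp only [bd, map_sum, map_zsmul]
  refine Finset.sum_congr rfl fun j _ => Finset.sum_congr rfl fun g _ => ?_
  rw [mul_assoc, hf]

end unitary

/-- representatives for the boundary -/
lemma exists_reps_bd (C : Subgroup G) (T : Finset G) (D : Matrix (Fin a) (Fin b) (MonoidAlgebra ℤ G)) :
    ∃ T' : Finset G, (∀ t ∈ T', ∀ t' ∈ T', t * t'⁻¹ ∈ C → t = t') ∧
      ∀ {W : Type} [AddCommGroup W] (f : Fin a → G → W),
        (∀ (j : Fin a) (x : G), f j x ≠ 0 → ∃ t ∈ T, x * t⁻¹ ∈ C) →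
        ∀ (k : Fin b) (x : G), bd D f k x ≠ 0 → ∃ t ∈ T', x * t⁻¹ ∈ C := by
  classical
  obtain ⟨T', h1, h2⟩ := exists_reps C (Finset.univ.biUnion fun j : Fin a =>
    Finset.univ.biUnion fun k : Fin b => (T ×ˢ (D j k).coeff.support).image fun p => p.1 * p.2)
  refine ⟨T', h1, ?_⟩
  intro W _ f hf k x hx
  obtain ⟨j, -, hj⟩ := Finset.exists_ne_zero_of_sum_ne_zero hx
  obtain ⟨g, hg, hgj⟩ := Finset.exists_ne_zero_of_sum_ne_zero hj
  have h3 : f j (x * g⁻¹) ≠ 0 := by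
    intro h0
    rw [h0, smul_zero] at hgj
    exact hgj rfl
  obtain ⟨t, ht, htC⟩ := hf j _ h3
  obtain ⟨t', ht', htC'⟩ := h2 (t * g) (by
    rw [Finset.mem_biUnion]
    refine ⟨j, Finset.mem_univ _, ?_⟩
    rw [Finset.mem_biUnion]
    exact ⟨k, Finset.mem_univ _, Finset.mem_image.2 ⟨(t, g), Finset.mem_product.2 ⟨ht, hg⟩, rfl⟩⟩)
  refine ⟨t', ht', ?_⟩
  have e : x * t'⁻¹ = (x * g⁻¹ * t⁻¹) * (t * g * t'⁻¹) := by group
  rw [e]
  exact C.mul_mem htC htC'

/-- the inequality for the regular representation -/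
lemma reg_ineq (X : FinRes G) (i : ℕ) {K : ℝ}
    (hK : ∀ (u : Fin (X.n (i + 1)) → G → ℂ) (α : Fin (X.n (i + 1)) → ℝ)
      (β : Fin (X.n i) → ℝ), (∀ j, HasSum (fun x => ‖u j x‖ ^ 2) (α j)) →
      (∀ k, HasSum (fun x => ‖bd (X.d i) u k x‖ ^ 2) (β k)) → ∑ j, α j ≤ K * ∑ k, β k)
    (hT : ∀ t ∈ T, ∀ t' ∈ T, t * t'⁻¹ ∈ C → t = t')
    (hT' : ∀ t ∈ T', ∀ t' ∈ T', t * t'⁻¹ ∈ C → t = t')
    (hTT : ∀ f : Fin (X.n (i + 1)) → G → Pool.Agent.TH98.ZT.L2 C,
        (∀ (j : Fin (X.n (i + 1))) (x : G), f j x ≠ 0 → ∃ t ∈ T, x * t⁻¹ ∈ C) →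
        ∀ (k : Fin (X.n i)) (x : G), bd (X.d i) f k x ≠ 0 → ∃ t ∈ T', x * t⁻¹ ∈ C)
    (x : Fin (X.n (i + 1)) × T → Pool.Agent.TH98.ZT.L2 C) :
    (AA C T (X.n (i + 1)) (ker reg x)).re ≤ K * (BB C T T' (X.d i) (ker reg x)).re := by
  rw [AA_ker, BB_ker, Complex.ofReal_re, Complex.ofReal_re]
  have h1 := hK (fun j y => ext reg x j y 1) (fun j => ∑ t ∈ T, ‖ext reg x j t‖ ^ 2)
    (fun k => ∑ y ∈ T', ‖bd (X.d i) (ext reg x) k y‖ ^ 2) (fun j =>
      hasSum_orbit (ext reg x j) (fun c y => ext_equi reg x j c y) T hT (fun y hy => ext_supp reg x j y hy))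
    (fun k => by
      have h2 := hasSum_orbit (bd (X.d i) (ext reg x) k)
        (fun c y => bd_ext_equi reg (X.d i) (ext reg x) (fun j c y => ext_equi reg x j c y) k c y) T' hT'
        (hTT (ext reg x) (fun j y hy => ext_supp reg x j y hy) k)
      have e : (fun y => ‖bd (X.d i) (fun j y => ext reg x j y 1) k y‖ ^ 2) =
          fun y => ‖bd (X.d i) (ext reg x) k y 1‖ ^ 2 := by
        funext y
        congr 2
        rw [bd, bd, lp.coeFn_sum, Finset.sum_apply]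
        refine Finset.sum_congr rfl fun j _ => ?_
        rw [lp.coeFn_sum, Finset.sum_apply]
        refine Finset.sum_congr rfl fun g _ => ?_
        rfl
      rw [e]
      exact h2)
  have h3 : ∀ j, ∑ t : T, ‖x (j, t)‖ ^ 2 = ∑ t ∈ T, ‖ext reg x j t‖ ^ 2 := by
    intro j
    rw [← Finset.sum_coe_sort T]
    refine Finset.sum_congr rfl fun t _ => ?_
    rw [ext_at reg hT x j t]
  simp only [h3]
  exact h1

/-- **top degree**: no non-zero cycles with coefficients in a tempered representation -/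
theorem top_cycle (X : FinRes G) (i : ℕ) (hlen : X.len = i + 1)
    (h : ∀ k ≤ X.len, Subsingleton (X.homology (toRed G) k))
    {V : Type} [NormedAddCommGroup V] [InnerProductSpace ℂ V] (π : URep C V)
    (hπ : Tempered π) (f : Fin (X.n (i + 1)) → G → V) (hf : IsChn π f)
    (hc : bd (X.d i) f = 0) : f = 0 := by
  obtain ⟨K, hK0, hK⟩ := bound X i hlen h
  obtain ⟨hf1, S, hS⟩ := hf
  obtain ⟨T, hT, hST⟩ := exists_reps C S
  obtain ⟨T', hT', hTT⟩ := exists_reps_bd C T (X.d i)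
  have hs : ∀ (j : Fin (X.n (i + 1))) (x : G), f j x ≠ 0 → ∃ t ∈ T, x * t⁻¹ ∈ C := by
    intro j x hx
    obtain ⟨s, hs, hsC⟩ := hS j x hx
    obtain ⟨t, ht, htC⟩ := hST s hs
    refine ⟨t, ht, ?_⟩
    have e : x * t⁻¹ = (x * s⁻¹) * (s * t⁻¹) := by group
    rw [e]
    exact C.mul_mem hsC htC
  have hfe := eq_ext π.hom hT f hf1 hs
  set v : Fin (X.n (i + 1)) × T → V := fun p => f p.1 p.2 with hv
  have h1 : ker π.hom v ∈ closure {κ : (Fin (X.n (i + 1)) × T) × (Fin (X.n (i + 1)) × T) × C → ℂ |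
      ∃ (N : ℕ) (w : Fin (X.n (i + 1)) × T → Fin N → Pool.Agent.TH98.ZT.L2 C), κ = regCoef w} :=
    hπ (Fin (X.n (i + 1)) × T) v
  have h2 : IsClosed {κ : (Fin (X.n (i + 1)) × T) × (Fin (X.n (i + 1)) × T) × C → ℂ |
      (AA C T (X.n (i + 1)) κ).re ≤ K * (BB C T T' (X.d i) κ).re} := by
    refine isClosed_le ?_ ?_
    · exact Complex.continuous_re.comp (AA C T (X.n (i + 1))).continuous
    · exact continuous_const.mul (Complex.continuous_re.comp (BB C T T' (X.d i)).continuous)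
  have h3 : ker π.hom v ∈ {κ : (Fin (X.n (i + 1)) × T) × (Fin (X.n (i + 1)) × T) × C → ℂ |
      (AA C T (X.n (i + 1)) κ).re ≤ K * (BB C T T' (X.d i) κ).re} := by
    refine closure_minimal ?_ h2 h1
    rintro _ ⟨N, w, rfl⟩
    have e1 : regCoef w = ∑ a, ker reg (fun q => w q a) := by
      funext p
      rw [Finset.sum_apply]
      rfl
    change (AA C T (X.n (i + 1)) _).re ≤ K * (BB C T T' (X.d i) _).re
    rw [e1, map_sum, map_sum, Complex.re_sum, Complex.re_sum, Finset.mul_sum]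
    refine Finset.sum_le_sum fun a _ => ?_
    exact reg_ineq X i hK hT hT' (fun f hf => hTT f hf) (fun q => w q a)
  change (AA C T (X.n (i + 1)) (ker π.hom v)).re ≤ K * (BB C T T' (X.d i) (ker π.hom v)).re at h3
  rw [AA_ker, BB_ker, Complex.ofReal_re, Complex.ofReal_re, ← hfe, hc] at h3
  have h4 : ∑ j : Fin (X.n (i + 1)), ∑ t : T, ‖v (j, t)‖ ^ 2 ≤ 0 := by
    refine h3.trans ?_
    simp
  have h5 : ∀ j t, v (j, t) = 0 := by
    intro j t
    have e1 : ‖v (j, t)‖ ^ 2 ≤ ∑ j : Fin (X.n (i + 1)), ∑ t : T, ‖v (j, t)‖ ^ 2 := by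
      refine le_trans ?_ (Finset.single_le_sum
        (f := fun j => ∑ t : T, ‖v (j, t)‖ ^ 2) (fun j _ => Finset.sum_nonneg fun t _ => by positivity)
        (Finset.mem_univ j))
      exact Finset.single_le_sum (f := fun t => ‖v (j, t)‖ ^ 2) (fun t _ => by positivity)
        (Finset.mem_univ t)
    have e2 : ‖v (j, t)‖ ^ 2 ≤ 0 := e1.trans h4
    have e3 : ‖v (j, t)‖ = 0 := by
      have := sq_nonneg ‖v (j, t)‖
      exact pow_eq_zero_iff (two_ne_zero) |>.1 (le_antisymm e2 this)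
    exact norm_eq_zero.1 e3
  rw [hfe]
  funext j g
  rw [ext]
  refine Finset.sum_eq_zero fun t _ => ?_
  rw [h5, map_zero, smul_zero]

/-- the case of dimension `0` -/
theorem top_zero (X : FinRes G) (hlen : X.len = 0)
    (h : ∀ k ≤ X.len, Subsingleton (X.homology (toRed G) k))
    {W : Type} [AddCommGroup W] (f : Fin (X.n 0) → G → W) : f = 0 := by
  classical
  obtain ⟨s, -, hs⟩ := Pool.Agent.TH254.ZT.exists_contr X (toRed G) 0 (fun k hk => h k (by omega))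
  have hn : X.n (0 + 1) = 0 := X.n_eq_zero _ (by omega)
  have hE : IsEmpty (Fin (X.n (0 + 1))) := by rw [hn]; infer_instance
  have hs1 : s * (X.d 0).map (toRed G) = 1 := hs
  have h0 : s * (X.d 0).map (toRed G) = 0 := by
    refine funext fun j => funext fun k => ?_
    rw [Matrix.mul_apply, Finset.univ_eq_empty, Finset.sum_empty]
    rfl
  funext j
  exfalso
  have h1 : (1 : Matrix (Fin (X.n 0)) (Fin (X.n 0)) (RedC G)) j j = 0 := by
    rw [← hs1, h0]; rfl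
  rw [Matrix.one_apply_eq] at h1
  have h2 : (1 : L2 G →L[ℂ] L2 G) = 0 := by
    rw [← map_one (valR (G := G)), h1, map_zero]
  have h3 : (1 : L2 G →L[ℂ] L2 G) (lp.single 2 (1 : G) (1 : ℂ)) = 0 := by rw [h2]; rfl
  have h4 : (lp.single 2 (1 : G) (1 : ℂ) : L2 G) = 0 := h3
  have h5 : (lp.single 2 (1 : G) (1 : ℂ) : L2 G) (1 : G) = 0 := by rw [h4]; rfl
  rw [lp.single_apply_self] at h5
  exact one_ne_zero h5

end

end Pool.Agent.TH98.ZT
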