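import Pool.Agent.TH98.ZT.Bound

set_option autoImplicit false
set_option linter.unusedSectionVars false

open scoped Matrix ENNReal

namespace Pool.Agent.TH98.ZT

open Pool.Agent.H919R4.ZS (FinRes RedC toRed)

noncomputable section

/-! ### the regular representation as a unitary representation -/

section reg

variable {C : Type} [Group C]

lemma transl_apply (c : C) (f : L2 C) (x : C) : transl c f x = f (c⁻¹ * x) := rfl

lemma transl_mul (c d : C) (f : L2 C) : transl (c * d) f = transl c (transl d f) := by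
  ext x
  rw [transl_apply, transl_apply, transl_apply, mul_inv_rev, mul_assoc]

lemma transl_one (f : L2 C) : transl 1 f = f := by
  ext x
  rw [transl_apply, inv_one, one_mul]

lemma norm_transl (c : C) (f : L2 C) : ‖transl c f‖ = ‖f‖ := by
  have h1 : (0 : ℝ) < (2 : ENNReal).toReal := by norm_num
  rw [lp.norm_eq_tsum_rpow h1, lp.norm_eq_tsum_rpow h1]
  congr 1
  exact (Equiv.mulLeft c⁻¹).tsum_eq (fun h => ‖f h‖ ^ (2 : ENNReal).toReal)

/-- the regular representation -/
def reg : C →* (L2 C ≃ₗᵢ[ℂ] L2 C) where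
  toFun c :=
    { toFun := transl c
      invFun := transl c⁻¹
      map_add' := fun f g => by ext x; rfl
      map_smul' := fun a f => by ext x; rfl
      left_inv := fun f => by rw [← transl_mul, inv_mul_cancel, transl_one]
      right_inv := fun f => by rw [← transl_mul, mul_inv_cancel, transl_one]
      norm_map' := fun f => norm_transl c f }
  map_one' := by
    ext f x
    change transl 1 f x = f x
    rw [transl_one]
  map_mul' c d := by
    ext f x
    change transl (c * d) f x = transl c (transl d f) x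
    rw [transl_mul]

lemma reg_apply (c : C) (f : L2 C) : reg c f = transl c f := rfl

end reg

variable {G : Type} [Group G] {C : Subgroup G}

/-- evaluation at the identity of an equivariant function with values in `ℓ²(C)` -/
lemma hasSum_orbit (F : G → L2 C) (hF : ∀ (c : C) (x : G), F (c * x) = transl c (F x))
    (T : Finset G) (hT : ∀ t ∈ T, ∀ t' ∈ T, t * t'⁻¹ ∈ C → t = t')
    (hs : ∀ x, F x ≠ 0 → ∃ t ∈ T, x * t⁻¹ ∈ C) :
    HasSum (fun x => ‖F x 1‖ ^ 2) (∑ t ∈ T, ‖F t‖ ^ 2) := by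
  classical
  have h1 : ∀ t ∈ T, HasSum (fun y : G => if y * t⁻¹ ∈ C then ‖F y 1‖ ^ 2 else 0) (‖F t‖ ^ 2) := by
    intro t _
    have hinj : Function.Injective (fun x : C => ((x⁻¹ : C) : G) * t) := by
      intro x y hxy
      have := mul_right_cancel hxy
      exact inv_injective (Subtype.ext this)
    rw [← hinj.hasSum_iff]
    · have e1 : ((fun y : G => if y * t⁻¹ ∈ C then ‖F y 1‖ ^ 2 else 0) ∘
          fun x : C => ((x⁻¹ : C) : G) * t) = fun x => ‖F t x‖ ^ 2 := by
        funext x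
        change (if ((x⁻¹ : C) : G) * t * t⁻¹ ∈ C then ‖F (((x⁻¹ : C) : G) * t) 1‖ ^ 2 else 0) = _
        rw [if_pos (by rw [mul_inv_cancel_right]; exact (x⁻¹).2), hF, transl_apply, inv_inv, mul_one]
      rw [e1]
      exact hasSum_norm_sq (F t)
    · intro y hy
      rw [if_neg]
      intro hC
      apply hy
      refine ⟨⟨y * t⁻¹, hC⟩⁻¹, ?_⟩
      change (((⟨y * t⁻¹, hC⟩⁻¹ : C)⁻¹ : C) : G) * t = y
      rw [inv_inv]
      change y * t⁻¹ * t = y
      rw [inv_mul_cancel_right]
  have h2 := hasSum_sum h1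
  have e2 : (fun x => ‖F x 1‖ ^ 2) =
      fun y => ∑ t ∈ T, (if y * t⁻¹ ∈ C then ‖F y 1‖ ^ 2 else 0) := by
    funext y
    by_cases hy : F y = 0
    · rw [hy]
      rw [Finset.sum_eq_zero]
      · simp
      · intro t _
        split_ifs <;> simp
    · obtain ⟨t, ht, htC⟩ := hs y hy
      rw [Finset.sum_eq_single t]
      · rw [if_pos htC]
      · intro t' ht' hne
        rw [if_neg]
        intro hC
        apply hne
        refine hT t' ht' t ht ?_
        have : t' * t⁻¹ = (y * t'⁻¹)⁻¹ * (y * t⁻¹) := by group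
        rw [this]
        exact C.mul_mem (C.inv_mem hC) htC
      · intro h; exact absurd ht h
  rw [e2]
  exact h2

/-- representatives of finitely many cosets -/
lemma exists_reps (C : Subgroup G) (S : Finset G) : ∃ T : Finset G,
    (∀ t ∈ T, ∀ t' ∈ T, t * t'⁻¹ ∈ C → t = t') ∧ ∀ x ∈ S, ∃ t ∈ T, x * t⁻¹ ∈ C := by
  classical
  let r : G → G := fun g => Quotient.out (Quotient.mk (QuotientGroup.rightRel C) g)
  have hr : ∀ g, g * (r g)⁻¹ ∈ C := by
    intro g
    have h1 : Quotient.mk (QuotientGroup.rightRel C) (r g) = Quotient.mk (QuotientGroup.rightRel C) g :=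
      Quotient.out_eq _
    have h2 := Quotient.exact h1
    exact (QuotientGroup.rightRel_apply).1 h2
  refine ⟨S.image r, ?_, fun x hx => ⟨r x, Finset.mem_image_of_mem _ hx, hr x⟩⟩
  intro t ht t' ht' h
  obtain ⟨a, -, rfl⟩ := Finset.mem_image.1 ht
  obtain ⟨b, -, rfl⟩ := Finset.mem_image.1 ht'
  have h1 : b * a⁻¹ ∈ C := by
    have e : b * a⁻¹ = (b * (r b)⁻¹) * (r a * (r b)⁻¹)⁻¹ * (a * (r a)⁻¹)⁻¹ := by group
    rw [e]
    exact C.mul_mem (C.mul_mem (hr b) (C.inv_mem h)) (C.inv_mem (hr a))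
  have h2 : Quotient.mk (QuotientGroup.rightRel C) a = Quotient.mk (QuotientGroup.rightRel C) b :=
    Quotient.sound ((QuotientGroup.rightRel_apply).2 h1)
  change Quotient.out _ = Quotient.out _
  rw [h2]

/-! ### equivariant functions from their values on representatives -/

open Classical in
/-- the indicator function of the coset -/
def chi (C : Subgroup G) (g t : G) : ℂ := if g * t⁻¹ ∈ C then 1 else 0

open Classical in
/-- the difference -/
def cc (C : Subgroup G) (g t : G) : C := if h : g * t⁻¹ ∈ C then ⟨g * t⁻¹, h⟩ else 1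

lemma chi_mul (c : C) (g t : G) : chi C (c * g) t = chi C g t := by
  rw [chi, chi]
  have : (c : G) * g * t⁻¹ ∈ C ↔ g * t⁻¹ ∈ C := by
    rw [mul_assoc]
    exact C.mul_mem_cancel_left c.2
  by_cases h : g * t⁻¹ ∈ C
  · rw [if_pos h, if_pos (this.2 h)]
  · rw [if_neg h, if_neg (fun h' => h (this.1 h'))]

lemma cc_mul (c : C) (g t : G) (h : g * t⁻¹ ∈ C) : cc C (c * g) t = c * cc C g t := by
  have h' : (c : G) * g * t⁻¹ ∈ C := by
    rw [mul_assoc]
    exact C.mul_mem c.2 h
  rw [cc, cc, dif_pos h, dif_pos h']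
  apply Subtype.ext
  change (c : G) * g * t⁻¹ = c * (g * t⁻¹)
  rw [mul_assoc]

lemma conj_chi (g t : G) : (starRingEnd ℂ) (chi C g t) = chi C g t := by
  rw [chi]
  split_ifs <;> simp

variable {W : Type} [NormedAddCommGroup W] [InnerProductSpace ℂ W] (ρ : C →* (W ≃ₗᵢ[ℂ] W))
  {T : Finset G} {a : ℕ}

/-- the equivariant functions with given values on the representatives -/
def ext (x : Fin a × T → W) (j : Fin a) (g : G) : W :=
  ∑ t : T, chi C g t • ρ (cc C g t) (x (j, t))

lemma ext_equi (x : Fin a × T → W) (j : Fin a) (c : C) (g : G) :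
    ext ρ x j (c * g) = ρ c (ext ρ x j g) := by
  rw [ext, ext, map_sum]
  refine Finset.sum_congr rfl fun t _ => ?_
  rw [chi_mul, map_smul]
  by_cases h : g * (t : G)⁻¹ ∈ C
  · rw [cc_mul c g t h, map_mul]
    rfl
  · have : chi C g (t : G) = 0 := by rw [chi, if_neg h]
    rw [this, zero_smul, zero_smul]

lemma ext_supp (x : Fin a × T → W) (j : Fin a) (g : G) (h : ext ρ x j g ≠ 0) :
    ∃ t ∈ T, g * t⁻¹ ∈ C := by
  obtain ⟨t, -, ht⟩ := Finset.exists_ne_zero_of_sum_ne_zero h
  refine ⟨t, t.2, ?_⟩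
  by_contra hC
  apply ht
  rw [chi, if_neg hC, zero_smul]

lemma ext_at (hT : ∀ t ∈ T, ∀ t' ∈ T, t * t'⁻¹ ∈ C → t = t') (x : Fin a × T → W) (j : Fin a)
    (t : T) : ext ρ x j t = x (j, t) := by
  rw [ext, Finset.sum_eq_single t]
  · have h1 : (t : G) * (t : G)⁻¹ ∈ C := by rw [mul_inv_cancel]; exact C.one_mem
    have h2 : cc C (t : G) (t : G) = 1 := by
      rw [cc, dif_pos h1]
      apply Subtype.ext
      exact mul_inv_cancel _
    rw [chi, if_pos h1, h2, map_one, one_smul]
    rfl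
  · intro t' _ hne
    rw [chi, if_neg, zero_smul]
    intro h
    exact hne (Subtype.ext (hT t t.2 t' t'.2 h)).symm
  · intro h; exact absurd (Finset.mem_univ t) h

/-- an equivariant function is determined by its values on representatives -/
lemma eq_ext (hT : ∀ t ∈ T, ∀ t' ∈ T, t * t'⁻¹ ∈ C → t = t') (f : Fin a → G → W)
    (hf : ∀ (j : Fin a) (c : C) (x : G), f j (c * x) = ρ c (f j x))
    (hs : ∀ (j : Fin a) (x : G), f j x ≠ 0 → ∃ t ∈ T, x * t⁻¹ ∈ C) :
    f = ext ρ (fun p : Fin a × T => f p.1 p.2) := by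
  funext j g
  by_cases h : ∃ t ∈ T, g * t⁻¹ ∈ C
  · obtain ⟨t, ht, hC⟩ := h
    have e : g = ((⟨g * t⁻¹, hC⟩ : C) : G) * t := by
      change g = g * t⁻¹ * t
      rw [inv_mul_cancel_right]
    rw [e, hf, ext_equi]
    congr 1
    exact (ext_at ρ hT (fun p : Fin a × T => f p.1 p.2) j ⟨t, ht⟩).symm
  · have h1 : f j g = 0 := by
      by_contra h1
      exact h (hs j g h1)
    have h2 : ext ρ (fun p : Fin a × T => f p.1 p.2) j g = 0 := by
      by_contra h2
      exact h (ext_supp ρ _ j g h2)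
    rw [h1, h2]

/-- the matrix coefficients -/
def ker (x : Fin a × T → W) : (Fin a × T) × (Fin a × T) × C → ℂ :=
  fun p => inner ℂ (ρ p.2.2 (x p.1)) (x p.2.1)

/-- the inner products of the values, in terms of the matrix coefficients -/
def Phi (C : Subgroup G) (T : Finset G) (a : ℕ) (j : Fin a) (g : G) (j' : Fin a) (g' : G) :
    ((Fin a × T) × (Fin a × T) × C → ℂ) →L[ℂ] ℂ :=
  ∑ t : T, ∑ t' : T, (chi C g t * chi C g' t') •
    ContinuousLinearMap.proj ((j, t), (j', t'), (cc C g' t')⁻¹ * cc C g t)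

lemma inner_ext (x : Fin a × T → W) (j j' : Fin a) (g g' : G) :
    inner ℂ (ext ρ x j g) (ext ρ x j' g') = Phi C T a j g j' g' (ker ρ x) := by
  rw [ext, ext, sum_inner, Phi, sum_apply]
  refine Finset.sum_congr rfl fun t _ => ?_
  rw [inner_sum, sum_apply]
  refine Finset.sum_congr rfl fun t' _ => ?_
  rw [inner_smul_left, inner_smul_right, conj_chi, smul_apply, smul_eq_mul,
    ← mul_assoc]
  congr 1
  change _ = inner ℂ (ρ ((cc C g' t')⁻¹ * cc C g t) (x (j, t))) (x (j', t'))
  rw [← (ρ (cc C g' t')).inner_map_map (ρ ((cc C g' t')⁻¹ * cc C g t) (x (j, t))) (x (j', t'))]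
  congr 1
  change ρ (cc C g t) (x (j, t)) = (ρ (cc C g' t') * ρ ((cc C g' t')⁻¹ * cc C g t)) (x (j, t))
  rw [← map_mul, mul_inv_cancel_left]

end

end Pool.Agent.TH98.ZT
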